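import Pool.Agent.X139.BT.Fix
import Pool.Agent.W254.PA.App

/-!
# The relation lemmas for an abstract space with the hyperplane property

As `X139.BT.Core` and `X139.BT.Fix`, for a field `Ω` of characteristic `0` and a space `L0` over the
algebraic numbers of `Ω` which has the hyperplane property, for instance the `p`-adic logarithms.
-/

set_option autoImplicit false

namespace Pool.Agent.X139.BG

open Module Finset
open Pool.Agent.W254.PA (Hyp)
open Pool.Agent.W254.Ab (QA mem_QA)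
open Pool.Agent.X139.BT (select select2 pivot)

variable {Ω : Type*} [Field Ω] [CharZero Ω]

theorem smul_memV (L0 : Submodule (QA Ω) Ω) (c : QA Ω) {z : Ω} (hz : z ∈ L0) : (c : Ω) * z ∈ L0 := by
  have := L0.smul_mem c hz
  rwa [Algebra.smul_def] at this

theorem alg_memV (L0 : Submodule (QA Ω) Ω) (h1 : (1 : Ω) ∈ L0) (c : QA Ω) : (c : Ω) ∈ L0 := by
  have := smul_memV L0 c h1
  rwa [mul_one] at this

/-- the kernel of the multiplication -/
noncomputable def Ker (L0 : Submodule (QA Ω) Ω) {N : ℕ} (v : Fin N → Ω) : Submodule (QA Ω) (Fin N → Ω) where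
  carrier := {x | (∀ k, x k ∈ L0) ∧ ∑ k, v k * x k = 0}
  zero_mem' := ⟨fun _ => L0.zero_mem, by simp⟩
  add_mem' := by
    rintro x y ⟨hx, hx0⟩ ⟨hy, hy0⟩
    refine ⟨fun k => L0.add_mem (hx k) (hy k), ?_⟩
    simp only [Pi.add_apply, mul_add, sum_add_distrib, hx0, hy0, add_zero]
  smul_mem' := by
    rintro c x ⟨hx, hx0⟩
    refine ⟨fun k => L0.smul_mem c (hx k), ?_⟩
    have : ∑ k, v k * (c • x) k = (c : Ω) * ∑ k, v k * x k := by
      rw [mul_sum]
      refine sum_congr rfl fun k _ => ?_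
      rw [Pi.smul_apply, Algebra.smul_def]
      change v k * ((c : Ω) * x k) = _
      ring
    rw [this, hx0, mul_zero]

theorem rank_Ker {L0 : Submodule (QA Ω) Ω} (hV : Hyp L0) {N : ℕ} (v : Fin N → Ω) (hv : LinearIndependent (QA Ω) v) :
    Module.rank (QA Ω) (Ker L0 v) ≤ (N * (N - 1) : ℕ) := by
  apply rank_le
  intro s hs
  let e := s.equivFin
  refine hV N s.card v (fun i j => ((e.symm j : Ker L0 v) : Fin N → Ω) i) hv
    (fun i j => (e.symm j : Ker L0 v).2.1 i) (fun j => (e.symm j : Ker L0 v).2.2) ?_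
  have h1 : LinearIndependent (QA Ω) (fun i : s => ((i : Ker L0 v) : Fin N → Ω)) :=
    hs.map' (Ker L0 v).subtype (Ker L0 v).ker_subtype
  exact h1.comp e.symm e.symm.injective

theorem finite_Ker {L0 : Submodule (QA Ω) Ω} (hV : Hyp L0) {N : ℕ} (v : Fin N → Ω) (hv : LinearIndependent (QA Ω) v) :
    Module.Finite (QA Ω) (Ker L0 v) :=
  Module.finite_of_rank_eq_nat (n := (Module.rank (QA Ω) (Ker L0 v)).toNat) (by
    rw [Cardinal.cast_toNat_of_lt_aleph0]
    exact (rank_Ker hV v hv).trans_lt (Cardinal.natCast_lt_aleph0))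

theorem finrank_Ker {L0 : Submodule (QA Ω) Ω} (hV : Hyp L0) {N : ℕ} (v : Fin N → Ω) (hv : LinearIndependent (QA Ω) v) :
    finrank (QA Ω) (Ker L0 v) ≤ N * (N - 1) :=
  finrank_le_of_rank_le (rank_Ker hV v hv)

/-- the space of all coordinates of elements of the kernel -/
noncomputable def coordMap (L0 : Submodule (QA Ω) Ω) {N : ℕ} (v : Fin N → Ω) : (Fin N → Ker L0 v) →ₗ[(QA Ω)] Ω where
  toFun z := ∑ k, (z k : Fin N → Ω) k
  map_add' x y := by simp [sum_add_distrib]
  map_smul' c x := by simp [smul_sum]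

noncomputable def U (L0 : Submodule (QA Ω) Ω) {N : ℕ} (v : Fin N → Ω) : Submodule (QA Ω) Ω := LinearMap.range (coordMap L0 v)

theorem mem_U {L0 : Submodule (QA Ω) Ω} {N : ℕ} {v : Fin N → Ω} {x : Fin N → Ω} (hx : x ∈ Ker L0 v) (k : Fin N) : x k ∈ U L0 v := by
  classical
  refine ⟨Pi.single k ⟨x, hx⟩, ?_⟩
  change ∑ j, ((Pi.single k (⟨x, hx⟩ : Ker L0 v) : Fin N → Ker L0 v) j : Fin N → Ω) j = x k
  rw [sum_eq_single k]
  · rw [Pi.single_eq_same]
  · intro j _ hj
    rw [Pi.single_eq_of_ne hj]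
    rfl
  · intro h
    exact absurd (mem_univ k) h

theorem finite_U {L0 : Submodule (QA Ω) Ω} (hV : Hyp L0) {N : ℕ} (v : Fin N → Ω) (hv : LinearIndependent (QA Ω) v) :
    Module.Finite (QA Ω) (U L0 v) := by
  haveI := finite_Ker hV v hv
  unfold U
  infer_instance

theorem finrank_U {L0 : Submodule (QA Ω) Ω} (hV : Hyp L0) {N : ℕ} (v : Fin N → Ω) (hv : LinearIndependent (QA Ω) v) :
    finrank (QA Ω) (U L0 v) ≤ N ^ 2 * (N - 1) := by
  haveI := finite_Ker hV v hv
  have h1 : finrank (QA Ω) (U L0 v) ≤ finrank (QA Ω) (Fin N → Ker L0 v) := LinearMap.finrank_range_le _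
  have h2 : finrank (QA Ω) (Fin N → Ker L0 v) = N * finrank (QA Ω) (Ker L0 v) := by
    rw [Module.finrank_pi_fintype]
    simp
  have h3 := finrank_Ker hV v hv
  calc finrank (QA Ω) (U L0 v) ≤ N * finrank (QA Ω) (Ker L0 v) := by rw [← h2]; exact h1
    _ ≤ N * (N * (N - 1)) := Nat.mul_le_mul_left _ h3
    _ = N ^ 2 * (N - 1) := by ring

/-- **The relation lemma.** -/
theorem relation {L0 : Submodule (QA Ω) Ω} (h1L : (1 : Ω) ∈ L0) {N : ℕ} (v : Fin N → Ω) {ι : Type*} (l : ι → Ω) (hl : ∀ s, l s ∈ L0)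
    (W0 : Submodule (QA Ω) Ω) (hW0 : (1 : Ω) ∈ W0)
    (hli : LinearIndependent (QA Ω) (fun s => (U L0 v ⊔ W0).mkQ (l s))) (S : Finset ι)
    (x : ι → Ω) (hx : ∀ s ∈ S, x s ∈ Submodule.span (QA Ω) (Set.range v)) (b c z : Ω)
    (hb : b ∈ Submodule.span (QA Ω) (Set.range v)) (hc : c ∈ Submodule.span (QA Ω) (Set.range v))
    (hb0 : b ≠ 0) (hz : z ∈ L0) (h : ∑ s ∈ S, x s * l s + c = b * z) :
    ∀ s ∈ S, IsAlgebraic ℚ (x s / b) := by
  classical
  have hrep : ∀ y ∈ Submodule.span (QA Ω) (Set.range v), ∃ ξ : Fin N → (QA Ω), y = ∑ k, v k * (ξ k : Ω) := by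
    intro y hy
    obtain ⟨ξ, hξ⟩ := (Submodule.mem_span_range_iff_exists_fun (QA Ω)).mp hy
    refine ⟨ξ, ?_⟩
    rw [← hξ]
    refine sum_congr rfl fun k _ => ?_
    rw [Algebra.smul_def, mul_comm]
    rfl
  have hrep' : ∀ s, ∃ ξ : Fin N → (QA Ω), s ∈ S → x s = ∑ k, v k * (ξ k : Ω) := by
    intro s
    by_cases hs : s ∈ S
    · obtain ⟨ξ, hξ⟩ := hrep _ (hx s hs)
      exact ⟨ξ, fun _ => hξ⟩
    · exact ⟨0, fun h => absurd h hs⟩
  choose ξ hξ using hrep'
  obtain ⟨β, hβ⟩ := hrep b hb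
  obtain ⟨γ, hγ⟩ := hrep c hc
  -- the coordinates of the relation
  let y : Fin N → Ω := fun k => ∑ s ∈ S, (ξ s k : Ω) * l s + (γ k : Ω) * 1 - (β k : Ω) * z
  have hyK : y ∈ Ker L0 v := by
    refine ⟨fun k => ?_, ?_⟩
    · refine L0.sub_mem (L0.add_mem (L0.sum_mem fun s _ => ?_) ?_) ?_
      · exact smul_memV L0 (ξ s k) (hl s)
      · exact smul_memV L0 (γ k) h1L
      · exact smul_memV L0 (β k) hz
    · have e1 : ∑ k, v k * y k = ∑ s ∈ S, (∑ k, v k * (ξ s k : Ω)) * l s +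
          (∑ k, v k * (γ k : Ω)) - (∑ k, v k * (β k : Ω)) * z := by
        simp only [y, mul_add, mul_sub, sum_add_distrib, sum_sub_distrib, sum_mul, mul_sum, mul_one]
        rw [sum_comm]
        congr 1
        · congr 1
          refine sum_congr rfl fun s _ => sum_congr rfl fun k _ => ?_
          ring
        · refine sum_congr rfl fun k _ => ?_
          ring
      rw [e1, ← hγ, ← hβ, ← h]
      have e2 : ∑ s ∈ S, (∑ k, v k * (ξ s k : Ω)) * l s = ∑ s ∈ S, x s * l s :=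
        sum_congr rfl fun s hs => by rw [← hξ s hs]
      rw [e2]
      ring
  have hyU : ∀ k, y k ∈ U L0 v ⊔ W0 := fun k => Submodule.mem_sup_left (mem_U hyK k)
  set W := U L0 v ⊔ W0 with hW
  have h1W : W.mkQ (1 : Ω) = 0 := by
    rw [← LinearMap.mem_ker, Submodule.ker_mkQ]
    exact Submodule.mem_sup_right hW0
  have hq : ∀ k, ∑ s ∈ S, ξ s k • W.mkQ (l s) = β k • W.mkQ z := by
    intro k
    have h2 : W.mkQ (y k) = 0 := by
      rw [← LinearMap.mem_ker, Submodule.ker_mkQ]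
      exact hyU k
    have h3 : y k = ∑ s ∈ S, ξ s k • l s + γ k • (1 : Ω) - β k • z := by
      simp only [y, Algebra.smul_def]
      rfl
    rw [h3, map_sub, map_add, map_sum] at h2
    simp only [map_smul, h1W, smul_zero, add_zero] at h2
    exact sub_eq_zero.mp h2
  obtain ⟨k₀, hk₀⟩ : ∃ k, β k ≠ 0 := by
    by_contra hcon
    push Not at hcon
    apply hb0
    rw [hβ]
    apply sum_eq_zero
    intro k _
    rw [hcon k]
    simp
  have hind := linearIndependent_iff'.mp hli S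
  intro s hs
  have hk : ∀ k, ξ s k = β k * (ξ s k₀ / β k₀) := by
    intro k
    have h4 : ∑ s ∈ S, (ξ s k - β k * (ξ s k₀ / β k₀)) • W.mkQ (l s) = 0 := by
      simp only [sub_smul, sum_sub_distrib]
      rw [hq k]
      have h5 : ∑ s ∈ S, (β k * (ξ s k₀ / β k₀)) • W.mkQ (l s) =
          (β k * (β k₀)⁻¹) • ∑ s ∈ S, ξ s k₀ • W.mkQ (l s) := by
        rw [smul_sum]
        refine sum_congr rfl fun s _ => ?_
        rw [smul_smul]
        congr 1
        ring
      rw [h5, hq k₀, smul_smul]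
      have h6 : β k * (β k₀)⁻¹ * β k₀ = β k := by
        rw [mul_assoc, inv_mul_cancel₀ hk₀, mul_one]
      rw [h6, sub_self]
    have := hind _ h4 s hs
    exact sub_eq_zero.mp this
  have h7 : x s = b * ((ξ s k₀ / β k₀ : (QA Ω)) : Ω) := by
    rw [hξ s hs, hβ, sum_mul]
    refine sum_congr rfl fun k _ => ?_
    conv_lhs => rw [hk k]
    push_cast
    ring
  rw [h7, mul_div_cancel_left₀ _ hb0]
  exact mem_QA.mp (ξ s k₀ / β k₀ : (QA Ω)).2


/-- the line of algebraic numbers -/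
noncomputable def W1 (Ω : Type*) [Field Ω] [CharZero Ω] : Submodule (QA Ω) Ω := Submodule.span (QA Ω) {(1 : Ω)}

theorem W1_mkQ_alg (a : (QA Ω)) : (W1 Ω).mkQ (a : Ω) = 0 := by
  rw [← LinearMap.mem_ker, Submodule.ker_mkQ]
  unfold W1
  rw [Submodule.mem_span_singleton]
  refine ⟨a, ?_⟩
  rw [Algebra.smul_def, mul_one]
  rfl

/-- **Relations with the fixed denominator `1`.** -/
theorem relation1 {L0 : Submodule (QA Ω) Ω} (hV : Hyp L0) (h1L : (1 : Ω) ∈ L0) (V : Submodule (QA Ω) Ω) [FiniteDimensional (QA Ω) V] (h1V : (1 : Ω) ∈ V) {ι : Type*}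
    (l : ι → Ω) (hl : ∀ s, l s ∈ L0) (hli : LinearIndependent (QA Ω) (fun s => (W1 Ω).mkQ (l s))) :
    ∃ E : Finset ι, E.card ≤ finrank (QA Ω) V * (finrank (QA Ω) V - 1) ∧
      ((∃ v ∈ V, v ∈ L0 ∧ Transcendental ℚ v) →
        E.card + 1 ≤ finrank (QA Ω) V * (finrank (QA Ω) V - 1)) ∧
      ∀ S : Finset ι, Disjoint S E → ∀ (x : ι → Ω) (c z : Ω), (∀ s ∈ S, x s ∈ V) → c ∈ V → z ∈ L0 →
        ∑ s ∈ S, x s * l s + c = z → ∀ s ∈ S, IsAlgebraic ℚ (x s) := by
  classical
  set M := finrank (QA Ω) V with hM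
  let B := Module.finBasis (QA Ω) V
  let w : Fin M → Ω := fun k => (B k : Ω)
  have hw : LinearIndependent (QA Ω) w := B.linearIndependent.map' V.subtype V.ker_subtype
  haveI := finite_Ker hV w hw
  have hKer := finrank_Ker hV w hw
  have hrep : ∀ y ∈ V, ∃ ξ : Fin M → (QA Ω), y = ∑ k, w k * (ξ k : Ω) := by
    intro y hy
    refine ⟨fun k => B.repr ⟨y, hy⟩ k, ?_⟩
    have h1 := B.sum_repr ⟨y, hy⟩
    have h2 := congrArg (fun z : V => (z : Ω)) h1
    simp only [Submodule.coe_sum, Submodule.coe_smul] at h2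
    refine h2.symm.trans (sum_congr rfl fun k _ => ?_)
    rw [Algebra.smul_def, mul_comm]
    rfl
  obtain ⟨a, ha⟩ := hrep 1 h1V
  obtain ⟨k₀, hk₀⟩ : ∃ k, a k ≠ 0 := by
    by_contra hcon
    push Not at hcon
    apply one_ne_zero (α := Ω)
    rw [ha]
    apply sum_eq_zero
    intro k _
    rw [hcon k]
    simp
  have hk₀' : (a k₀ : Ω) ≠ 0 := fun h => hk₀ (Subtype.ext h)
  -- the map `τ`
  let τ : Ker L0 w →ₗ[(QA Ω)] (Fin M → Ω ⧸ (W1 Ω)) := LinearMap.pi fun k =>
    (W1 Ω).mkQ.comp ((a k₀ • (LinearMap.proj k : (Fin M → Ω) →ₗ[(QA Ω)] Ω) -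
      a k • (LinearMap.proj k₀ : (Fin M → Ω) →ₗ[(QA Ω)] Ω)).comp (Ker L0 w).subtype)
  have hτ : ∀ (y : Ker L0 w) k, τ y k = (W1 Ω).mkQ (a k₀ • (y : Fin M → Ω) k - a k • (y : Fin M → Ω) k₀) :=
    fun y k => rfl
  -- the map `σ`
  let σ : (Fin M → (ι →₀ (QA Ω))) →ₗ[(QA Ω)] (Fin M → Ω ⧸ (W1 Ω)) :=
    LinearMap.pi fun k => (Finsupp.linearCombination (QA Ω) (fun s => (W1 Ω).mkQ (l s))).comp
      (LinearMap.proj k)
  have hσ : ∀ ρ k, σ ρ k = Finsupp.linearCombination (QA Ω) (fun s => (W1 Ω).mkQ (l s)) (ρ k) :=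
    fun ρ k => rfl
  have hσi : Function.Injective σ := by
    rw [← LinearMap.ker_eq_bot, LinearMap.ker_eq_bot']
    intro ρ hρ
    funext k
    have := congrFun hρ k
    rw [hσ] at this
    exact (linearIndependent_iff.mp hli) _ this
  let R : Submodule (QA Ω) (Fin M → (ι →₀ (QA Ω))) := (LinearMap.range τ).comap σ
  let σ' : R →ₗ[(QA Ω)] LinearMap.range τ := σ.restrict (fun r hr => hr)
  have hσ'i : Function.Injective σ' := by
    intro r r' h
    apply Subtype.ext
    apply hσi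
    exact congrArg (fun z : LinearMap.range τ => (z : Fin M → Ω ⧸ (W1 Ω))) h
  haveI : FiniteDimensional (QA Ω) R := Module.Finite.of_injective σ' hσ'i
  have hR : finrank (QA Ω) R ≤ finrank (QA Ω) (LinearMap.range τ) :=
    LinearMap.finrank_le_finrank_of_injective hσ'i
  have hrn := LinearMap.finrank_range_add_finrank_ker τ
  -- the kernel of `τ`
  have hker : (∃ v ∈ V, v ∈ L0 ∧ Transcendental ℚ v) → 1 ≤ finrank (QA Ω) (LinearMap.ker τ) := by
    rintro ⟨v, hvV, hvL, hvt⟩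
    obtain ⟨ν, hν⟩ := hrep v hvV
    let y : Fin M → Ω := fun k => (ν k : Ω) - (a k : Ω) * v
    have hyK : y ∈ Ker L0 w := by
      refine ⟨fun k => L0.sub_mem (alg_memV L0 h1L (ν k))
          (smul_memV L0 (a k) hvL), ?_⟩
      have : ∑ k, w k * y k = (∑ k, w k * (ν k : Ω)) - (∑ k, w k * (a k : Ω)) * v := by
        rw [sum_mul, ← sum_sub_distrib]
        refine sum_congr rfl fun k _ => ?_
        simp only [y]
        ring
      rw [this, ← hν, ← ha, one_mul, sub_self]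
    have hyτ : (⟨y, hyK⟩ : Ker L0 w) ∈ LinearMap.ker τ := by
      rw [LinearMap.mem_ker]
      funext k
      rw [hτ]
      have e : a k₀ • y k - a k • y k₀ = ((a k₀ * ν k - a k * ν k₀ : (QA Ω)) : Ω) := by
        simp only [y, Algebra.smul_def]
        change (a k₀ : Ω) * _ - (a k : Ω) * _ = _
        push_cast
        ring
      change (W1 Ω).mkQ (a k₀ • y k - a k • y k₀) = 0
      rw [e]
      exact W1_mkQ_alg _
    refine Submodule.one_le_finrank_iff.mpr fun hbot => ?_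
    have h6 : (⟨y, hyK⟩ : Ker L0 w) = 0 := by
      rw [hbot] at hyτ
      exact (Submodule.mem_bot (QA Ω)).mp hyτ
    have h7 : y k₀ = 0 := congrArg (fun z : Ker L0 w => (z : Fin M → Ω) k₀) h6
    apply hvt
    have h8 : v = ((ν k₀ / a k₀ : (QA Ω)) : Ω) := by
      push_cast
      rw [eq_div_iff hk₀']
      simp only [y] at h7
      linear_combination -h7
    rw [h8]
    exact mem_QA.mp (ν k₀ / a k₀ : (QA Ω)).2
  -- the exceptional set
  obtain ⟨E, hE, hpiv⟩ := pivot (K := (QA Ω)) (R := Fin M → (ι →₀ (QA Ω))) (M := Fin M → (QA Ω))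
    (fun s : ι => LinearMap.pi fun k => (Finsupp.lapply s).comp (LinearMap.proj k))
    (by
      intro r hr
      funext k
      ext s
      have := congrFun (hr s) k
      exact congrArg (fun z : (QA Ω) => (z : Ω)) this) (finrank (QA Ω) R) R inferInstance le_rfl
  refine ⟨E, by omega, fun hv => ?_, ?_⟩
  · have := hker hv
    omega
  · intro S hSE x c z hx hc hz h
    have hrep' : ∀ s, ∃ ξ : Fin M → (QA Ω), s ∈ S → x s = ∑ k, w k * (ξ k : Ω) := by
      intro s
      by_cases hs : s ∈ S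
      · obtain ⟨ξ, hξ⟩ := hrep _ (hx s hs)
        exact ⟨ξ, fun _ => hξ⟩
      · exact ⟨0, fun h => absurd h hs⟩
    choose ξ hξ using hrep'
    obtain ⟨γ, hγ⟩ := hrep c hc
    let y : Fin M → Ω := fun k => ∑ s ∈ S, (ξ s k : Ω) * l s + (γ k : Ω) * 1 - (a k : Ω) * z
    have hyK : y ∈ Ker L0 w := by
      refine ⟨fun k => ?_, ?_⟩
      · refine L0.sub_mem (L0.add_mem (L0.sum_mem fun s _ => ?_) ?_) ?_
        · exact smul_memV L0 (ξ s k) (hl s)
        · exact smul_memV L0 (γ k) h1L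
        · exact smul_memV L0 (a k) hz
      · have e1 : ∑ k, w k * y k = ∑ s ∈ S, (∑ k, w k * (ξ s k : Ω)) * l s +
            (∑ k, w k * (γ k : Ω)) - (∑ k, w k * (a k : Ω)) * z := by
          simp only [y, mul_add, mul_sub, sum_add_distrib, sum_sub_distrib, sum_mul, mul_sum,
            mul_one]
          rw [sum_comm]
          congr 1
          · congr 1
            refine sum_congr rfl fun s _ => sum_congr rfl fun k _ => ?_
            ring
          · refine sum_congr rfl fun k _ => ?_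
            ring
        rw [e1, ← hγ, ← ha, one_mul, ← h]
        have e2 : ∑ s ∈ S, (∑ k, w k * (ξ s k : Ω)) * l s = ∑ s ∈ S, x s * l s :=
          sum_congr rfl fun s hs => by rw [← hξ s hs]
        rw [e2]
        ring
    let ρ : Fin M → (ι →₀ (QA Ω)) := fun k =>
      ∑ s ∈ S, Finsupp.single s (a k₀ * ξ s k - a k * ξ s k₀)
    have hρs : ∀ k s, ρ k s = if s ∈ S then a k₀ * ξ s k - a k * ξ s k₀ else 0 := by
      intro k s
      simp only [ρ, Finsupp.finsetSum_apply, Finsupp.single_apply]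
      rw [sum_ite_eq']
    have hρR : ρ ∈ R := by
      refine ⟨⟨y, hyK⟩, ?_⟩
      funext k
      rw [hτ, hσ]
      have e3 : (a k₀ • y k - a k • y k₀ : Ω) =
          ∑ s ∈ S, (a k₀ * ξ s k - a k * ξ s k₀) • l s +
            ((a k₀ * γ k - a k * γ k₀ : (QA Ω)) : Ω) := by
        simp only [y, Algebra.smul_def]
        change (a k₀ : Ω) * _ - (a k : Ω) * _ = ∑ s ∈ S,
          ((a k₀ * ξ s k - a k * ξ s k₀ : (QA Ω)) : Ω) * l s + _
        push_cast
        simp only [sub_mul, sum_sub_distrib, mul_add, mul_sub, mul_sum]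
        have e4 : ∑ s ∈ S, (a k₀ : Ω) * ((ξ s k : Ω) * l s) =
          ∑ s ∈ S, (a k₀ : Ω) * (ξ s k : Ω) * l s := sum_congr rfl fun s _ => by ring
        have e5 : ∑ s ∈ S, (a k : Ω) * ((ξ s k₀ : Ω) * l s) =
          ∑ s ∈ S, (a k : Ω) * (ξ s k₀ : Ω) * l s := sum_congr rfl fun s _ => by ring
        rw [e4, e5]
        ring
      change (W1 Ω).mkQ (a k₀ • y k - a k • y k₀) = _
      rw [e3, map_add, W1_mkQ_alg, add_zero, map_sum]
      simp only [ρ, map_sum, Finsupp.linearCombination_single, map_smul]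
    have hρ0 : ρ = 0 := by
      apply hpiv ρ hρR
      intro s hs
      funext k
      change ρ k s = 0
      rw [hρs, if_neg (fun h => (Finset.disjoint_left.mp hSE) h hs)]
    intro s hs
    have h5 : ∀ k, a k₀ * ξ s k = a k * ξ s k₀ := by
      intro k
      have h6 : ρ k s = 0 := by rw [hρ0]; rfl
      rw [hρs, if_pos hs] at h6
      exact sub_eq_zero.mp h6
    have h7 : x s = ((ξ s k₀ / a k₀ : (QA Ω)) : Ω) := by
      rw [hξ s hs]
      have h8 : ∀ k, (ξ s k : Ω) = (a k : Ω) * ((ξ s k₀ / a k₀ : (QA Ω)) : Ω) := by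
        intro k
        have h9 : ξ s k = a k * (ξ s k₀ / a k₀) := by
          field_simp
          linear_combination h5 k
        conv_lhs => rw [h9]
        push_cast
        rfl
      calc ∑ k, w k * (ξ s k : Ω) = (∑ k, w k * (a k : Ω)) * ((ξ s k₀ / a k₀ : (QA Ω)) : Ω) := by
            rw [sum_mul]
            refine sum_congr rfl fun k _ => ?_
            rw [h8 k]; ring
        _ = _ := by rw [← ha, one_mul]
    rw [h7]
    exact mem_QA.mp (ξ s k₀ / a k₀ : (QA Ω)).2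

end Pool.Agent.X139.BG
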