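import Pool.Agent.X139.BG.Core

/-!
# The relation theorem for an abstract space, and for `p`-adic logarithms
-/

set_option autoImplicit false

namespace Pool.Agent.X139.BG

open Module Finset
open Pool.Agent.W254.PA (Hyp)
open Pool.Agent.W254.Ab (QA mem_QA)
open Pool.Agent.X139.BT (select select2 pivot)

variable {Ω : Type*} [Field Ω] [CharZero Ω]

/-- separating the indices with algebraic quotients -/
theorem split {L0 : Submodule (QA Ω) Ω} {ι : Type*} (l : ι → Ω) (hl : ∀ s, l s ∈ L0) (S E : Finset ι)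
    [DecidableEq ι] (x : ι → Ω) (b c z : Ω) (hb : b ≠ 0)
    (hxE : ∀ s ∈ S, s ∈ E → IsAlgebraic ℚ (x s / b)) (hz : z ∈ L0)
    (h : ∑ s ∈ S, x s * l s + c = b * z) :
    ∃ z' ∈ L0, ∑ s ∈ S.filter (fun s => s ∉ E), x s * l s + c = b * z' := by
  classical
  refine ⟨z - ∑ s ∈ S.filter (fun s => s ∈ E), (x s / b) * l s, ?_, ?_⟩
  · refine L0.sub_mem hz (L0.sum_mem fun s hs => ?_)
    have hs' := mem_filter.mp hs
    exact smul_memV L0 ⟨x s / b, mem_QA.mpr (hxE s hs'.1 hs'.2)⟩ (hl s)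
  · rw [mul_sub, ← h, ← sum_filter_add_sum_filter_not S (fun s => s ∈ E), mul_sum]
    have : ∑ s ∈ S.filter (fun s => s ∈ E), b * (x s / b * l s) =
        ∑ s ∈ S.filter (fun s => s ∈ E), x s * l s := by
      refine sum_congr rfl fun s _ => ?_
      field_simp
    rw [this]
    ring

/-- **Quotients.** -/
theorem quot {L0 : Submodule (QA Ω) Ω} (hV : Hyp L0) (h1L : (1 : Ω) ∈ L0) (V : Submodule (QA Ω) Ω)
    [FiniteDimensional (QA Ω) V] {ι : Type*} (l : ι → Ω) (hl : ∀ s, l s ∈ L0)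
    (hli : LinearIndependent (QA Ω) (fun s => (W1 Ω).mkQ (l s))) :
    ∃ E : Finset ι, E.card ≤ finrank (QA Ω) V ^ 2 * (finrank (QA Ω) V - 1) ∧
      ∀ (S : Finset ι) (x : ι → Ω) (b c z : Ω), (∀ s ∈ S, x s ∈ V) → b ∈ V → b ≠ 0 → c ∈ V →
        (∀ s ∈ S, s ∈ E → IsAlgebraic ℚ (x s / b)) → z ∈ L0 →
        ∑ s ∈ S, x s * l s + c = b * z → ∀ s ∈ S, IsAlgebraic ℚ (x s / b) := by
  classical
  set M := finrank (QA Ω) V with hM
  let B := Module.finBasis (QA Ω) V
  let w : Fin M → Ω := fun k => (B k : Ω)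
  have hw : LinearIndependent (QA Ω) w := B.linearIndependent.map' V.subtype V.ker_subtype
  have hwspan : Submodule.span (QA Ω) (Set.range w) = V := by
    have h1 : Set.range w = V.subtype '' (Set.range B) := by
      rw [← Set.range_comp]; rfl
    rw [h1, ← Submodule.map_span, B.span_eq, Submodule.map_subtype_top]
  haveI := finite_U hV w hw
  obtain ⟨E, hE, hind⟩ := select2 l (W1 Ω) (U L0 w) hli
  have hU := finrank_U hV w hw
  refine ⟨E, by omega, ?_⟩
  intro S x b c z hx hb hb0 hc hxE hz h s hs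
  by_cases hsE : s ∈ E
  · exact hxE s hs hsE
  obtain ⟨z', hz', h'⟩ := split l hl S E x b c z hb0 hxE hz h
  let S' : Finset {s // s ∉ E} := (S.filter (fun s => s ∉ E)).subtype (fun s => s ∉ E)
  have h1 : ∑ s ∈ S', x (s : ι) * l (s : ι) = ∑ s ∈ S.filter (fun s => s ∉ E), x s * l s := by
    have : S.filter (fun s => s ∉ E) = S'.map (Function.Embedding.subtype fun s => s ∉ E) := by
      ext t
      simp only [S', mem_map, mem_subtype, Function.Embedding.subtype_apply, mem_filter]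
      constructor
      · intro ht
        exact ⟨⟨t, ht.2⟩, ht, rfl⟩
      · rintro ⟨a, ha, rfl⟩
        exact ha
    rw [this, sum_map]
    rfl
  refine relation h1L w (fun s : {s // s ∉ E} => l s) (fun s => hl s) (W1 Ω)
    (by unfold W1; exact Submodule.mem_span_singleton_self _) hind S' (fun s => x s) ?_ b c z'
    (by rw [hwspan]; exact hb) (by rw [hwspan]; exact hc) hb0 hz' (by rw [h1]; exact h') ⟨s, hsE⟩ ?_
  · intro t ht
    rw [hwspan]
    have := mem_subtype.mp ht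
    exact hx _ (mem_filter.mp this).1
  · exact mem_subtype.mpr (mem_filter.mpr ⟨hs, hsE⟩)

/-- **Fixed denominator.** -/
theorem fixed {L0 : Submodule (QA Ω) Ω} (hV : Hyp L0) (h1L : (1 : Ω) ∈ L0) (V : Submodule (QA Ω) Ω)
    [FiniteDimensional (QA Ω) V] (h1V : (1 : Ω) ∈ V) {ι : Type*} (l : ι → Ω) (hl : ∀ s, l s ∈ L0)
    (hli : LinearIndependent (QA Ω) (fun s => (W1 Ω).mkQ (l s))) :
    ∃ E : Finset ι, E.card ≤ finrank (QA Ω) V * (finrank (QA Ω) V - 1) ∧
      ((∃ v ∈ V, v ∈ L0 ∧ Transcendental ℚ v) →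
        E.card + 1 ≤ finrank (QA Ω) V * (finrank (QA Ω) V - 1)) ∧
      ∀ (S : Finset ι) (x : ι → Ω) (c z : Ω), (∀ s ∈ S, x s ∈ V) → c ∈ V →
        (∀ s ∈ S, s ∈ E → IsAlgebraic ℚ (x s)) → z ∈ L0 →
        ∑ s ∈ S, x s * l s + c = z → ∀ s ∈ S, IsAlgebraic ℚ (x s) := by
  classical
  obtain ⟨E, hE, hE', hrel⟩ := relation1 hV h1L V h1V l hl hli
  refine ⟨E, hE, hE', ?_⟩
  intro S x c z hx hc hxE hz h s hs
  by_cases hsE : s ∈ E
  · exact hxE s hs hsE
  obtain ⟨z', hz', h'⟩ := split l hl S E x 1 c z one_ne_zero (by simpa using hxE) hz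
    (by rw [one_mul]; exact h)
  rw [one_mul] at h'
  refine hrel (S.filter (fun s => s ∉ E)) ?_ x c z' (fun s hs => hx s (mem_filter.mp hs).1) hc hz' h'
    s (mem_filter.mpr ⟨hs, hsE⟩)
  rw [Finset.disjoint_left]
  intro t ht hE
  exact (mem_filter.mp ht).2 hE

section padic

open Pool.Agent.W245.PB (IsIwasawaLog brumer)
open Pool.Agent.W254.PA (LtE logs hyp_padic log_memP one_memP optP_indep)

variable {p : ℕ} [hp : Fact p.Prime] {L : PadicAlgCl p → PadicAlgCl p} (hL : IsIwasawaLog p L)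

include hL in
/-- Brumer's theorem modulo `1` -/
theorem indep_W1P {ι : Type} (α : ι → PadicAlgCl p) (hα0 : ∀ i, α i ≠ 0)
    (hα : ∀ i, IsAlgebraic ℚ (α i)) (hli : LinearIndependent ℚ fun i => L (α i)) :
    LinearIndependent (QA (PadicAlgCl p)) (fun s => (W1 (PadicAlgCl p)).mkQ (L (α s))) := by
  classical
  have hB := optP_indep hL α hα0 hα hli
  rw [linearIndependent_iff'] at hB ⊢
  intro S g hg s hs
  have h1 : ∑ s ∈ S, g s • L (α s) ∈ W1 (PadicAlgCl p) := by
    rw [← Submodule.ker_mkQ (W1 (PadicAlgCl p)), LinearMap.mem_ker, map_sum, ← hg]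
    exact sum_congr rfl fun i _ => map_smul _ _ _
  unfold W1 at h1
  obtain ⟨a, ha⟩ := Submodule.mem_span_singleton.mp h1
  have h2 := hB (insert none (S.map Function.Embedding.some))
    (fun o => o.elim (-a) (fun s => g s)) (by
      rw [sum_insert (by simp), sum_map]
      simp only [Option.elim_none, Option.elim_some, Function.Embedding.some_apply]
      rw [← ha, neg_smul, neg_add_cancel]) (some s)
    (mem_insert_of_mem (mem_map_of_mem _ hs))
  exact h2

end padic

end Pool.Agent.X139.BG
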